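import Mathlib
import Pool.Agent.U853.AN.Main

/-!
# The anatomy of the violators of Frey's inequality among all elliptic curves over `ℚ`

Frey's inequality is `h_F(A) ≤ κ log N_A + c`, `h_F` the stable Faltings height. We consider ALL elliptic curves
over `ℚ`, that is, all minimal models `y² = x³ - a x - b`, `|a| ≤ X²`, `|b| ≤ X³`, and the slopes
`1/12 < κ < 1/10`. The starting file `ViolatorsSecondOrder` says that there are
`X ^ (1/(2κ) - 1) exp ((√(48 - 4/κ) + o(1)) s)`, `s = √(log X / log log X)`, violators. Here it is shown that all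
but a proportion `exp (- η s)` of them look the same:

* the discriminant and the height are almost as large as possible: `|Δ| ≥ X ^ (6 - ε)`,
  `h_F ≥ (1/2 - ε) log X`;
* they violate the inequality only just: `h_F ≤ κ log N + ε log X`, and `N = X ^ (1/(2κ) + O(ε))`;
* they are almost semistable: the product of the primes `p ≥ 5` of additive reduction is at most
  `exp (ε s)`, much less than any power of `X`;
* the number of the primes `p ≥ 5` of multiplicative reduction with `p² ∣ Δ` is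
  `(√(12 - 1/κ) + O(ε)) s`, and the product of these primes is at most `X ^ ε`;
* the part of the discriminant at `2`, `3` and the additive primes is at most `X ^ ε`, and the gain
  `∏ p ^ (v_p(Δ) - 1)` over the squared multiplicative primes is `X ^ (6 - 1/(2κ) + O(ε))`: the whole
  difference between the discriminant and the conductor sits there.

So Frey's inequality with these slopes fails because of high powers of about
`√((12 - 1/κ) log X / log log X)` small primes of multiplicative reduction, never because of squares of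
large primes or because of additive reduction.

Method. The library `Pool.Agent.N906.FH` (counting of the curves with given local conditions `n`, the lower
bound for the violators). New: the gain inequality with the additive primes, `|D| q ^ (1 - 6 lam) ≤ K n Mx ^ (1 - lam)`,
`q` the product of the additive primes, and Rankin's method with the weights
`z ^ ω(n)`, `rad(n) ^ (θ u)`, `(n / T) ^ (1/2)`.
-/

set_option autoImplicit false

namespace Pool.Agent.Results.MP_c59389_nt.AnatomyOfViolators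

open Filter Topology

/-- the discriminant of `x³ - a x - b` -/
def Disc (a b : ℤ) : ℤ := 4 * a ^ 3 - 27 * b ^ 2

/-- `y² = x³ - a x - b` is an elliptic curve and `|Disc|` is least among the integral models
`y² = x³ - a' x - b'`, `a' = u⁴ a`, `b' = u⁶ b`, `u ∈ ℚ^×`. Every elliptic curve over `ℚ` has exactly
one such model. -/
def IsMinimal (a b : ℤ) : Prop :=
  Disc a b ≠ 0 ∧ ∀ (u : ℚ) (a' b' : ℤ), u ≠ 0 → (a' : ℚ) = u ^ 4 * a → (b' : ℚ) = u ^ 6 * b →
    |Disc a b| ≤ |Disc a' b'|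

/-- the prime-to-6 part of the conductor of a minimal model: the product over the primes `p ≥ 5`
dividing `Disc` of `p` (multiplicative reduction: `p ∤ a`) or `p²` (additive reduction: `p ∣ a`) -/
def Cond6 (a b : ℤ) : ℕ :=
  ∏ p ∈ (Disc a b).natAbs.primeFactors.filter (fun p => 5 ≤ p), if (p : ℤ) ∣ a then p ^ 2 else p

/-- `f` lies between `N₆` and a constant times `N₆` on the minimal models; for instance `f = N₆`, and
`f =` the conductor -/
def Admissible (f : ℤ × ℤ → ℝ) : Prop :=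
  ∃ B : ℝ, ∀ q : ℤ × ℤ, IsMinimal q.1 q.2 →
    (Cond6 q.1 q.2 : ℝ) ≤ f q ∧ f q ≤ B * Cond6 q.1 q.2

/-- the curve `y² = x³ - a x - b` over `ℚ`, `q = (a, b)` -/
def E (q : ℤ × ℤ) : WeierstrassCurve ℚ := ⟨0, 0, 0, -(q.1 : ℚ), -(q.2 : ℚ)⟩

/-- the modular invariant `j(τ) = E₄(τ) ^ 3 / Δ(τ) = 1 / q + 744 + ⋯` -/
noncomputable def jInv (τ : UpperHalfPlane) : ℂ :=
  ModularForm.E₄ τ ^ 3 / ModularForm.discriminant τ

/-- the archimedean term `- log (|Δ(τ)| (Im τ) ^ 6)` of the Faltings height -/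
noncomputable def arch (τ : UpperHalfPlane) : ℝ :=
  -Real.log (‖ModularForm.discriminant τ‖ * τ.im ^ 6)

/-- `E(ℂ)` is isomorphic to `ℂ / (ℤ + ℤ τ)`: `j(τ) = c₄³ / Δ` is the invariant of `E` -/
def IsPeriod (q : ℤ × ℤ) (τ : UpperHalfPlane) : Prop :=
  jInv τ = (((E q).c₄ ^ 3 / (E q).Δ : ℚ) : ℂ)

/-- The stable Faltings height (up to an additive constant which depends on the normalisation only):
`12 h_F(E)` is the logarithm of the stable minimal discriminant, that is of the denominator of the invariant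
`c₄³ / Δ`, plus the archimedean term at a period `τ` of the curve. -/
noncomputable def height (q : ℤ × ℤ) (τ : UpperHalfPlane) : ℝ :=
  (Real.log (((E q).c₄ ^ 3 / (E q).Δ).den : ℝ) + arch τ) / 12

/-- the minimal models with `|a| ≤ X²`, `|b| ≤ X³` which violate `h_F(E) < κ log f + c` -/
def Violators (f : ℤ × ℤ → ℝ) (κ c X : ℝ) : Set (ℤ × ℤ) :=
  {q | IsMinimal q.1 q.2 ∧ |(q.1 : ℝ)| ≤ X ^ 2 ∧ |(q.2 : ℝ)| ≤ X ^ 3 ∧
    ∃ τ, IsPeriod q τ ∧ κ * Real.log (f q) + c ≤ height q τ}

/-- the primes `p ≥ 5` of additive reduction -/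
def additive (q : ℤ × ℤ) : Finset ℕ :=
  (Disc q.1 q.2).natAbs.primeFactors.filter (fun p => 5 ≤ p ∧ (p : ℤ) ∣ q.1)

/-- the primes `p ≥ 5` of multiplicative reduction with `p² ∣ Δ` -/
def squared (q : ℤ × ℤ) : Finset ℕ :=
  (Disc q.1 q.2).natAbs.primeFactors.filter
    (fun p => 5 ≤ p ∧ ¬ (p : ℤ) ∣ q.1 ∧ p ^ 2 ∣ (Disc q.1 q.2).natAbs)

/-- the part of `|Disc|` at `2`, `3` and the primes of additive reduction -/
def rest (q : ℤ × ℤ) : ℕ :=
  ∏ p ∈ (Disc q.1 q.2).natAbs.primeFactors.filter (fun p : ℕ => p < 5 ∨ (p : ℤ) ∣ q.1),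
    p ^ (Disc q.1 q.2).natAbs.factorization p

/-- the gain `∏ p ^ (v_p(Disc) - 1)` of the discriminant over the conductor at the squared primes -/
def gain (q : ℤ × ℤ) : ℕ :=
  ∏ p ∈ squared q, p ^ ((Disc q.1 q.2).natAbs.factorization p - 1)

/-- the violator `q` is typical, up to `ε` -/
structure Typical (f : ℤ × ℤ → ℝ) (κ ε X : ℝ) (q : ℤ × ℤ) : Prop where
  /-- the discriminant is almost as large as possible -/
  discriminant : X ^ (6 - ε) ≤ |((Disc q.1 q.2 : ℤ) : ℝ)|
  /-- the height is almost as large as possible -/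
  height : ∀ τ, IsPeriod q τ → |height q τ - 1 / 2 * Real.log X| ≤ ε * Real.log X
  /-- the inequality fails only just -/
  margin : ∀ τ, IsPeriod q τ → AnatomyOfViolators.height q τ ≤ κ * Real.log (f q) + ε * Real.log X
  /-- the conductor -/
  conductor : |Real.log (f q) - 1 / (2 * κ) * Real.log X| ≤ ε * Real.log X
  /-- the product of the primes `p ≥ 5` of additive reduction -/
  additive : ((∏ p ∈ additive q, p : ℕ) : ℝ) ≤ Real.exp (ε * √(Real.log X / Real.log (Real.log X)))
  /-- the number of the primes `p ≥ 5` of multiplicative reduction with `p² ∣ Δ` -/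
  number : |((squared q).card : ℝ) - √(12 - 1 / κ) * √(Real.log X / Real.log (Real.log X))| ≤
    ε * √(Real.log X / Real.log (Real.log X))
  /-- the product of these primes -/
  product : ((∏ p ∈ squared q, p : ℕ) : ℝ) ≤ X ^ ε
  /-- the part of the discriminant at the other bad primes which could matter -/
  rest : (rest q : ℝ) ≤ X ^ ε
  /-- all the rest of the discriminant is in the powers of the few squared primes -/
  gain : |Real.log (gain q) - (6 - 1 / (2 * κ)) * Real.log X| ≤ ε * Real.log X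

/-- the violators which are not typical -/
def Atypical (f : ℤ × ℤ → ℝ) (κ c ε X : ℝ) : Set (ℤ × ℤ) :=
  {q | q ∈ Violators f κ c X ∧ ¬ Typical f κ ε X q}

theorem hm (a b : ℤ) : IsMinimal a b ↔ Pool.Agent.N906.SZ.Mn a b :=
  Pool.Agent.N157.SZ.isMinimal_iff a b

theorem viol_eq (f : ℤ × ℤ → ℝ) (κ c X : ℝ) : Violators f κ c X =
    Pool.Agent.N906.FH.HV (Pool.Agent.U853.AN.Vi (fun a b => f (a, b)) κ c) X := by
  ext q
  exact and_congr (hm _ _) Iff.rfl

open Pool.Agent.U853.AN in
/-- typical in the sense of the library, with `ε / 48`, implies typical -/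
theorem typical_of {f : ℤ × ℤ → ℝ} {B κ c ε : ℝ} (hB : 1 ≤ B)
    (hf : ∀ q : ℤ × ℤ, IsMinimal q.1 q.2 → (Cond6 q.1 q.2 : ℝ) ≤ f q ∧ f q ≤ B * Cond6 q.1 q.2)
    (hκ1 : 1 / 12 < κ) (hε : 0 < ε) :
    ∃ X₀ : ℝ, ∀ X : ℝ, X₀ ≤ X → ∀ q ∈ Violators f κ c X,
      Typ (fun a b => f (a, b)) κ (ε / 48) X q → Typical f κ ε X q := by
  obtain ⟨C₁, hC₁⟩ := Pool.Agent.N195.FH.arch_bds
  obtain ⟨C₅, hC₅⟩ : ∃ C₅ : ℝ, C₅ = (Real.log 6912 + Real.log 64 + C₁) / 12 := ⟨_, rfl⟩
  obtain ⟨X₁, hX₁⟩ := eventually_atTop.1 (Real.tendsto_log_atTop.eventually_ge_atTop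
    (48 * (|C₅| + |c|) / ε))
  obtain ⟨X₂, hX₂⟩ := eventually_atTop.1 (Real.tendsto_log_atTop.eventually_ge_atTop
    (4 * (Real.log 31 + Real.log B) / ε))
  obtain ⟨X₃, hX₃⟩ := eventually_atTop.1 (sc_small (c := 1) one_pos)
  refine ⟨max (max X₁ (max X₂ X₃)) 3, fun X hX q hq ht => ?_⟩
  have hX3 : 3 ≤ X := (le_max_right _ _).trans hX
  have hXm : max X₁ (max X₂ X₃) ≤ X := (le_max_left _ _).trans hX
  have hX0 : 0 < X := by linarith
  have hX1 : 1 ≤ X := by linarith
  have hL0 : 0 ≤ Real.log X := Real.log_nonneg hX1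
  have hL := hX₁ X ((le_max_left _ _).trans hXm)
  have hL2 := hX₂ X ((le_max_left _ _).trans ((le_max_right _ _).trans hXm))
  have hL3 := hX₃ X ((le_max_right _ _).trans ((le_max_right _ _).trans hXm))
  rw [div_le_iff₀ hε] at hL hL2
  have hκ0 : 0 < κ := by linarith
  obtain ⟨g1, g2, g3, τ₀, g4, g5⟩ := hq
  have g1' := (hm _ _).1 g1
  have hupper : ∀ τ, IsPeriod q τ → height q τ ≤ Real.log X / 2 + C₅ := by
    intro τ hτ
    have k1 := ((hC₁ q.1 q.2 g1'.1).2 τ hτ).2.1
    have hden : (0 : ℝ) < ((Pool.Agent.N906.FH.jE q.1 q.2).den : ℝ) := by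
      exact_mod_cast (Pool.Agent.N906.FH.jE q.1 q.2).den_pos
    have hmax : (0 : ℝ) < max 1 |((Pool.Agent.N906.FH.jE q.1 q.2 : ℚ) : ℝ)| :=
      lt_max_of_lt_left one_pos
    have k2 := Real.log_le_log (mul_pos hden hmax)
      ((den_max g1'.1).trans (mul_le_mul_of_nonneg_left (Pool.Agent.N692.FH.upg_mx g2 g3)
        (by norm_num)))
    rw [Real.log_mul hden.ne' hmax.ne', Real.log_mul (by norm_num) (by positivity),
      Real.log_mul (by norm_num) (by positivity), Real.log_pow] at k2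
    push_cast at k2
    have k3 : (Real.log ((Pool.Agent.N906.FH.jE q.1 q.2).den : ℝ) +
        Pool.Agent.N906.FH.arch τ) / 12 ≤ Real.log X / 2 + C₅ := by
      rw [hC₅]
      linarith
    exact k3
  have hs0 := sc_nonneg X
  have e48 : ε / 48 ≤ ε := by linarith
  have hc5 := le_abs_self C₅
  have hcc := neg_abs_le c
  have hb0 := abs_nonneg C₅
  have hb1 := abs_nonneg c
  have h6 : 0 ≤ ε * Real.log X := mul_nonneg hε.le hL0
  have hcon : |Real.log (f q) - 1 / (2 * κ) * Real.log X| ≤ ε / 2 * Real.log X := by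
    have h1 : (1 / 2 - ε / 48) * Real.log X ≤ height q τ₀ := ht.height τ₀ g4
    have h2 : height q τ₀ ≤ κ * Real.log (f q) + ε / 48 * Real.log X := ht.margin τ₀ g4
    have h3 := hupper τ₀ g4
    have e1 : 1 / (2 * κ) * Real.log X = (1 / 2 * Real.log X) / κ := by
      field_simp
    have h7 : 1 / 12 * (ε / 2 * Real.log X) ≤ κ * (ε / 2 * Real.log X) :=
      mul_le_mul_of_nonneg_right hκ1.le (by linarith)
    rw [e1, abs_le]
    constructor
    · rw [neg_le_sub_iff_le_add, ← sub_le_iff_le_add, ← mul_le_mul_iff_of_pos_left hκ0]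
      have e2 : κ * (1 / 2 * Real.log X / κ - ε / 2 * Real.log X) =
          1 / 2 * Real.log X - κ * (ε / 2 * Real.log X) := by
        field_simp
      rw [e2]
      linarith
    · rw [sub_le_iff_le_add, ← mul_le_mul_iff_of_pos_left hκ0]
      have e2 : κ * (ε / 2 * Real.log X + 1 / 2 * Real.log X / κ) =
          κ * (ε / 2 * Real.log X) + 1 / 2 * Real.log X := by
        field_simp
      rw [e2]
      linarith
  refine ⟨?_, fun τ hτ => ?_, fun τ hτ => ?_, ?_, ?_, ?_, ?_, ?_, ?_⟩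
  · exact (Real.rpow_le_rpow_of_exponent_le hX1 (by linarith)).trans ht.disc
  · have h1 : (1 / 2 - ε / 48) * Real.log X ≤ height q τ := ht.height τ hτ
    have h2 := hupper τ hτ
    rw [abs_le]
    constructor <;> linarith
  · have h1 : height q τ ≤ κ * Real.log (f q) + ε / 48 * Real.log X := ht.margin τ hτ
    have h3 := mul_le_mul_of_nonneg_right e48 hL0
    linarith
  · exact hcon.trans (by linarith)
  · refine ht.additive.trans (Real.exp_le_exp.2 ?_)
    exact mul_le_mul_of_nonneg_right e48 hs0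
  · refine ht.number.trans ?_
    exact mul_le_mul_of_nonneg_right e48 hs0
  · exact ht.product.trans (Real.rpow_le_rpow_of_exponent_le hX1 e48)
  · exact ht.rest.trans (Real.rpow_le_rpow_of_exponent_le hX1 e48)
  · obtain ⟨hf1, hf2⟩ := hf q g1
    have hG0 : (0 : ℝ) < (gain q : ℝ) := by
      exact_mod_cast Finset.prod_pos fun p hp => pow_pos
        (Nat.prime_of_mem_primeFactors (Finset.mem_filter.1 hp).1).pos _
    have hN0 : (0 : ℝ) < (Cond6 q.1 q.2 : ℝ) := by
      exact_mod_cast Pool.Agent.N906.SZ.Nc_pos q.1 q.2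
    have hB0 : 0 < B := by linarith
    have hfq : 0 < f q := lt_of_lt_of_le hN0 hf1
    have hD0 : Disc q.1 q.2 ≠ 0 := g1.1
    have hDn : (0 : ℝ) < (((Disc q.1 q.2).natAbs : ℕ) : ℝ) := by
      exact_mod_cast Int.natAbs_pos.2 hD0
    have hDa : (((Disc q.1 q.2).natAbs : ℕ) : ℝ) = |((Disc q.1 q.2 : ℤ) : ℝ)| := by
      rw [Nat.cast_natAbs, Int.cast_abs]
    have hR0 : (0 : ℝ) < (rest q : ℝ) := by
      exact_mod_cast Finset.prod_pos fun p hp => pow_pos
        (Nat.prime_of_mem_primeFactors (Finset.mem_filter.1 hp).1).pos _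
    have hq0 : (0 : ℝ) < (qa q.1 q.2 : ℝ) := by
      exact_mod_cast qa_pos q.1 q.2
    have k1 : (((Disc q.1 q.2).natAbs : ℕ) : ℝ) ≤
        (rest q : ℝ) * ((Cond6 q.1 q.2 : ℝ) * (gain q : ℝ)) := by
      exact_mod_cast Dd_le (a := q.1) (b := q.2) hD0
    have k2 : (gain q : ℝ) * (Cond6 q.1 q.2 : ℝ) ≤
        (((Disc q.1 q.2).natAbs : ℕ) : ℝ) * (qa q.1 q.2 : ℝ) ^ 2 := by
      exact_mod_cast Gn_le (a := q.1) (b := q.2) hD0
    have l1 := Real.log_le_log hDn k1
    rw [Real.log_mul hR0.ne' (by positivity), Real.log_mul hN0.ne' hG0.ne'] at l1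
    have l2 := Real.log_le_log (by positivity) k2
    rw [Real.log_mul hG0.ne' hN0.ne', Real.log_mul hDn.ne' (by positivity), Real.log_pow] at l2
    push_cast at l2
    have l3 : (6 - ε / 48) * Real.log X ≤ Real.log (((Disc q.1 q.2).natAbs : ℕ) : ℝ) := by
      rw [← Real.log_rpow hX0, hDa]
      exact Real.log_le_log (by positivity) ht.disc
    have l4 : Real.log (((Disc q.1 q.2).natAbs : ℕ) : ℝ) ≤ Real.log 31 + 6 * Real.log X := by
      have e : Real.log 31 + 6 * Real.log X = Real.log (31 * X ^ 6) := by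
        rw [Real.log_mul (by norm_num) (by positivity), Real.log_pow]
        push_cast
        ring
      rw [e, hDa]
      refine Real.log_le_log (by rw [← hDa]; exact hDn) ?_
      unfold Disc
      push_cast
      have m1 : |(q.1 : ℝ)| ^ 3 ≤ (X ^ 2) ^ 3 := pow_le_pow_left₀ (abs_nonneg _) g2 3
      have m2 : |(q.2 : ℝ)| ^ 2 ≤ (X ^ 3) ^ 2 := pow_le_pow_left₀ (abs_nonneg _) g3 2
      calc |4 * (q.1 : ℝ) ^ 3 - 27 * (q.2 : ℝ) ^ 2| ≤ |4 * (q.1 : ℝ) ^ 3| + |27 * (q.2 : ℝ) ^ 2| :=
            abs_sub _ _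
        _ = 4 * |(q.1 : ℝ)| ^ 3 + 27 * |(q.2 : ℝ)| ^ 2 := by
            rw [abs_mul, abs_mul, abs_pow, abs_pow, abs_of_pos (by norm_num : (0 : ℝ) < 4),
              abs_of_pos (by norm_num : (0 : ℝ) < 27)]
        _ ≤ 4 * (X ^ 2) ^ 3 + 27 * (X ^ 3) ^ 2 := by linarith
        _ = 31 * X ^ 6 := by ring
    have l5 : Real.log (rest q : ℝ) ≤ ε / 48 * Real.log X := by
      rw [← Real.log_rpow hX0]
      exact Real.log_le_log hR0 ht.rest
    have l6 : Real.log (Cond6 q.1 q.2 : ℝ) ≤ Real.log (f q) := Real.log_le_log hN0 hf1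
    have l7 : Real.log (f q) ≤ Real.log B + Real.log (Cond6 q.1 q.2 : ℝ) := by
      rw [← Real.log_mul hB0.ne' hN0.ne']
      exact Real.log_le_log hfq hf2
    have l8 : Real.log (qa q.1 q.2 : ℝ) ≤ ε / 48 * sc X := by
      rw [Real.log_le_iff_le_exp hq0]
      exact ht.additive
    have l9 : ε / 48 * sc X ≤ ε / 48 * (1 * Real.log X) :=
      mul_le_mul_of_nonneg_left hL3 (by positivity)
    obtain ⟨n1, n2⟩ := abs_le.1 hcon
    rw [abs_le]
    constructor <;> linarith

/-- **Theorem.** Let `f` be admissible (for instance the conductor), `1/12 < κ < 1/10` and `c` real. There are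
only finitely many violators in each box, and for every `ε > 0` there is `η > 0` such that, for all large `X`, the
proportion of the violators that are not typical is at most `exp (- η √(log X / log log X))`. -/
theorem result : ∀ f : ℤ × ℤ → ℝ, Admissible f → ∀ κ c : ℝ, 1 / 12 < κ → κ < 1 / 10 →
    (∀ X : ℝ, (Violators f κ c X).Finite) ∧
    ∀ ε : ℝ, 0 < ε → ∃ η : ℝ, 0 < η ∧ ∃ X₀ : ℝ, ∀ X : ℝ, X₀ ≤ X →
      ((Atypical f κ c ε X).ncard : ℝ) ≤
        Real.exp (-η * √(Real.log X / Real.log (Real.log X))) *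
          ((Violators f κ c X).ncard : ℝ) := by
  intro f hf κ c h1 h2
  obtain ⟨B, hB⟩ := hf
  have hB' : ∀ q : ℤ × ℤ, IsMinimal q.1 q.2 →
      (Cond6 q.1 q.2 : ℝ) ≤ f q ∧ f q ≤ max B 1 * Cond6 q.1 q.2 := by
    intro q hq
    obtain ⟨g1, g2⟩ := hB q hq
    refine ⟨g1, g2.trans ?_⟩
    have : (0 : ℝ) ≤ (Cond6 q.1 q.2 : ℝ) := Nat.cast_nonneg _
    exact mul_le_mul_of_nonneg_right (le_max_left _ _) this
  have hfin : ∀ X : ℝ, (Violators f κ c X).Finite := fun X => by
    rw [viol_eq]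
    exact Pool.Agent.N906.FH.HV_fin _ X
  refine ⟨hfin, fun ε hε => ?_⟩
  obtain ⟨η, hη, h⟩ := Pool.Agent.U853.AN.anatomy (f := fun a b => f (a, b)) (B := max B 1)
    (le_max_right _ _) (fun a b hab => hB' (a, b) ((hm a b).2 hab)) h1 h2 c
    (ε := ε / 48) (by positivity)
  obtain ⟨X₁, hX₁⟩ := eventually_atTop.1 h
  obtain ⟨X₂, hX₂⟩ := typical_of (c := c) (le_max_right B 1) hB' h1 hε
  refine ⟨η, hη, max X₁ X₂, fun X hX => ?_⟩
  have h3 := hX₁ X ((le_max_left _ _).trans hX)
  rw [← viol_eq] at h3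
  refine le_trans ?_ h3
  have hsub : Atypical f κ c ε X ⊆
      Pool.Agent.U853.AN.Aty (fun a b => f (a, b)) κ c (ε / 48) X := by
    rintro q ⟨hq, hn⟩
    refine ⟨?_, fun ht => hn (hX₂ X ((le_max_right _ _).trans hX) q hq ht)⟩
    have hq' := hq
    rw [viol_eq] at hq'
    exact hq'
  have hfin2 : (Pool.Agent.U853.AN.Aty (fun a b => f (a, b)) κ c (ε / 48) X).Finite :=
    (hfin X).subset fun q hq => by
      rw [viol_eq]
      exact hq.1
  exact_mod_cast Set.ncard_le_ncard hsub hfin2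

end Pool.Agent.Results.MP_c59389_nt.AnatomyOfViolators
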