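import Pool.Agent.U536.CF.F
import Pool.Agent.Results.MP_c59389_nt.MultiplicativeValues

/-!
# Frey's inequality for all Weil restrictions with height near an integer with a large common factor with a value of a multiplicative function

Let `f` be a positive multiplicative function of at most polynomial growth such that `f p ≤ M p` for the large primes `p`,
with different values at different large primes; for example Euler's function or the sum of the divisors. Let `G` have
steps bounded below by a positive constant and growth at most `v^D`, for example `α v^D`. Let `b < 1` and `0 ≤ c < 2 b -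
1`. For all `m ≤ N` but `N exp (-(log N)^c)`, for EVERY integer `w ≥ exp ((log N)^b)` with `gcd(w, f(m)) ≥ w^ρ`, Frey's
inequality `h_F(A) ≤ κ log N_A - C` holds for ALL Weil restrictions `A = Res_{L/ℚ} E`, where `L` is any number field of
degree `n` and `E` an elliptic curve over `L` with full two-torsion, such that `H = exp (h_F(A))` satisfies `|H ^ (n + 1)
- G w| ≤ w ^ θ` (in the form `n h_F(E) ≤ κ log (badNorm E |D_L| ^ 2) - C`), if `n ≥ 2`, `κ > 0`, `θ ≥ 0`, `C` real and `D
e(n) / ((n + 1) κ) + θ < ρ ≤ 1`; here `e n ≤ max (2 / 3) (expo n / 2)`, `e 2, e 3 ≤ 2 / 3` and `e n = O (log ^ 2 n)`. The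
integers `w` include all large divisors of `f(m)` and their multiples by small integers; for Euler's function, the orders
of the elements of the group of units modulo `m`.

Proof. Write `m = k u` with `u` squarefree and composed of primes larger than `N^(1/J)`, `J = (log N)^a`, and `k ≤ exp (4
(log N)^a)`; this is possible for all `m ≤ N` but very few. If `v ∣ f(k) f(u)`, then `v = g v'` with `g ∣ f(k)` and `v' ∣
∏ f(p)`, and the number of such `u ≤ N / k` is at most `N / (k v')` times `(log N)^O(J)` times the number `τ_J(v')` of the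
ordered factorizations of `v'` into `J` factors. The inequality `τ_J^q ≤ τ_K` for `K ≥ J^q` and Hölder's inequality bound
the sum over the sparse set of the exceptional `v`. The file `MultiplicativeValues` of the starting library treats the
integers `w = f(m)`, with `N / (log N)^U` exceptions.
-/

set_option autoImplicit false

namespace Pool.Agent.Results.MP_c59389_nt.CommonFactors

open NumberField
open WeilRestrictions (jInv faltings FullTwo badNorm Violators expo IsPeriod)
open StarshapedFrey (hF ht Exc count Num)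
open Pool.Agent.N733.TG (LM Expanding lm_totient lm_sigma expanding_pow)
open Pool.Agent.U536.CF (Common common_windows common_of_dvd common_order)

/-- **Frey's inequality for all Weil restrictions with height near an integer with a large common factor with a value of a
multiplicative function.** Let `f` be multiplicative and positive, of at most polynomial growth, with `f p ≤ M p` at the
large primes, and injective there. Let `G` have steps `≥ a > 0` and growth at most `v^D`. Let `b < 1` and `0 ≤ c < 2 b -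
1`, `n ≥ 2`, `κ > 0`, `θ ≥ 0`, `C` real and `D e(n) / ((n + 1) κ) + θ < ρ ≤ 1`; here `e n ≤ max (2 / 3) (expo n / 2)`, `e
2, e 3 ≤ 2 / 3` and `e n = O (log ^ 2 n)`. For all large `N`, for all `m ≤ N` but `N exp (-(log N)^c)`, for EVERY integer
`w ≥ exp ((log N)^b)` with `gcd(w, f(m)) ≥ w^ρ`, Frey's inequality `h_F(A) ≤ κ log N_A - C` holds for ALL Weil
restrictions `A = Res_{L/ℚ} E`, where `L` is any number field of degree `n` and `E` an elliptic curve over `L` with full
two-torsion, such that `H = exp (h_F(A))` satisfies `|H ^ (n + 1) - G w| ≤ w ^ θ` (in the form `n h_F(E) ≤ κ log (badNorm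
E |D_L| ^ 2) - C`). All divisors `w ≥ exp ((log N)^b)` of `f(m)` are such integers `w`, and for Euler's function the
orders `≥ exp ((log N)^b)` of the units modulo `m`. Euler's function and the sum of the divisors are examples of `f`, and
`α v^D` with `α > 0`, `D ≥ 1` is an example of `G`. -/
theorem result :
    (∃ e : ℕ → ℝ, (∀ n, 0 ≤ e n) ∧ (∀ n : ℕ, 2 ≤ n → e n ≤ max (2 / 3) (expo n / 2)) ∧
      (∀ c : ℝ, 1 / (16 * (Real.log 2) ^ 2) < c → ∀ᶠ n : ℕ in Filter.atTop, e n ≤ c * (Real.log n) ^ 2) ∧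
      ∀ P : ℂ → UpperHalfPlane, (∀ z, jInv (P z) = z) → ∀ f : ℕ → ℕ, LM f → ∀ (G : ℕ → ℝ) (D : ℝ), Expanding G D →
        ∀ n : ℕ, 2 ≤ n → ∀ κ θ ρ b c : ℝ, 0 < κ → 0 ≤ θ → D * (e n / ((n + 1) * κ)) + θ < ρ → ρ ≤ 1 → b < 1 → 0 ≤ c →
        c < 2 * b - 1 → ∀ C : ℝ, ∃ N₀ : ℕ, ∀ N : ℕ, N₀ ≤ N →
          ({m : ℕ | 1 ≤ m ∧ m ≤ N ∧ ¬ ∀ w : ℕ, Common f b ρ N m w →
            ∀ (L : IntermediateField ℚ (AlgebraicClosure ℚ)) (_ : NumberField L) (W : WeierstrassCurve L),
              Module.finrank ℚ L = n → W.Δ ≠ 0 → FullTwo W →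
              |Real.exp (hF P (W.c₄ ^ 3 / W.Δ)) ^ (n + 1) - G w| ≤ (w : ℝ) ^ θ →
                hF P (W.c₄ ^ 3 / W.Δ) ≤ κ * Real.log (badNorm W * |(NumberField.discr L : ℝ)| ^ 2) - C}.ncard : ℝ) ≤
            N * Real.exp (-(Real.log N ^ c))) ∧
    (LM Nat.totient ∧ LM (fun m => ∑ d ∈ m.divisors, d)) ∧
    (∀ α d : ℝ, 0 < α → 1 ≤ d → Expanding (fun v => α * (v : ℝ) ^ d) d) ∧
    (∀ (f : ℕ → ℕ) (b ρ : ℝ) (N m w : ℕ), ρ ≤ 1 → Real.exp (Real.log N ^ b) ≤ (w : ℝ) → w ∣ f m → Common f b ρ N m w) ∧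
    ∀ (b ρ : ℝ) (N m : ℕ), ρ ≤ 1 → ∀ x : (ZMod m)ˣ, Real.exp (Real.log N ^ b) ≤ (orderOf x : ℝ) →
      Common Nat.totient b ρ N m (orderOf x) := by
  refine ⟨?_, ⟨lm_totient, lm_sigma⟩, fun α d hα hd => expanding_pow hα hd, fun f b ρ N m w hρ hw hd => common_of_dvd hρ hw hd,
    fun b ρ N m hρ x hx => common_order hρ x hx⟩
  obtain ⟨e, he1, he2, he3⟩ := WeilRestrictions.result.1
  refine ⟨fun n => max (e n) 0, fun n => le_max_right _ _, fun n hn => max_le (he2 n hn) ?_,
    fun c hc => ?_, fun P hP f hf G D hG n hn κ θ ρ b c hκ hθ h1 hρ hb hc hcb C => ?_⟩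
  · exact le_trans (by norm_num) (le_max_left _ _)
  · have hc0 : 0 < c := lt_trans (by
      have := Real.log_pos (by norm_num : (1 : ℝ) < 2)
      positivity) hc
    filter_upwards [he1 c hc] with n hn
    exact max_le hn (by positivity)
  · obtain ⟨N₀, hN₀⟩ := common_windows (Exc P n κ (-C)) (fun p => Real.exp (ht P p) ^ (n + 1)) hf hG
      (s := max (e n) 0 / ((n + 1) * κ)) (κ := θ) (div_nonneg (le_max_right _ _) (by positivity)) hθ h1 hρ hb hc hcb
      (fun ε hε => count hP hn hκ (fun δ hδ => he3 n hn κ (-C) δ hκ hδ) ε hε)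
    refine ⟨N₀, fun N hN => le_trans ?_ (hN₀ N hN)⟩
    have hfin : {m : ℕ | 1 ≤ m ∧ m ≤ N ∧ ∃ w : ℕ, Common f b ρ N m w ∧ ∃ p ∈ Exc P n κ (-C),
        |Real.exp (ht P p) ^ (n + 1) - G w| ≤ (w : ℝ) ^ θ}.Finite := by
      apply (Set.finite_Icc 1 N).subset
      intro m hm
      exact ⟨hm.1, hm.2.1⟩
    have hsub : {m : ℕ | 1 ≤ m ∧ m ≤ N ∧ ¬ ∀ w : ℕ, Common f b ρ N m w →
            ∀ (L : IntermediateField ℚ (AlgebraicClosure ℚ)) (_ : NumberField L) (W : WeierstrassCurve L),
              Module.finrank ℚ L = n → W.Δ ≠ 0 → FullTwo W →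
              |Real.exp (hF P (W.c₄ ^ 3 / W.Δ)) ^ (n + 1) - G w| ≤ (w : ℝ) ^ θ →
                hF P (W.c₄ ^ 3 / W.Δ) ≤ κ * Real.log (badNorm W * |(NumberField.discr L : ℝ)| ^ 2) - C} ⊆
        {m : ℕ | 1 ≤ m ∧ m ≤ N ∧ ∃ w : ℕ, Common f b ρ N m w ∧ ∃ p ∈ Exc P n κ (-C),
          |Real.exp (ht P p) ^ (n + 1) - G w| ≤ (w : ℝ) ^ θ} := by
      rintro m ⟨h2, h3, h4⟩
      push Not at h4
      obtain ⟨w, hw0, L, hL, W, hd, hW1, hW2, hw, hcon⟩ := h4
      refine ⟨h2, h3, w, hw0, ⟨⟨L, hL⟩, W.c₄ ^ 3 / W.Δ⟩, ⟨hd, W, hW1, hW2, rfl, ?_⟩, hw⟩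
      show κ * Real.log (badNorm W * |(NumberField.discr L : ℝ)| ^ 2) + -C < hF P (W.c₄ ^ 3 / W.Δ)
      linarith
    exact_mod_cast Set.ncard_le_ncard hsub hfin

end Pool.Agent.Results.MP_c59389_nt.CommonFactors
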