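import Mathlib
import Pool.Agent.U951.FC.Crit

/-!
# Frey's height conjecture at the critical slope: the error term

Frey's inequality for elliptic curves over `ℚ` is `h_F(E) ≤ (1/2 + ε) log N_E + c(ε)`. We show that at the
slope `1/2` itself an error term of the order `√(log N) / log log N` is needed, with a constant up to
and including `3.42`, and that there are many curves which show this.

1. Let `K > 0`, `K' ≥ 0`, `K + K' ≤ 6.84`. For every `c` and all large `Y` there are at least
`exp (K' √Y / log Y)` semistable elliptic curves over `ℚ` with full rational 2-torsion, with different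
modular invariants, such that all products `A = E₁ × ⋯ × Eₙ` (`n ≥ 1`) of these curves satisfy
`log N_A ≤ n Y`, `h_F(A) ≤ n (Y / 2 + C)` and

  `h_F(A) ≥ (1/2) log N_A + n (K / 2) √Y / log Y + c`.

2. For every `0 ≤ κ ≤ 3.42` and every `c` the inequality
`h_F(E) ≥ (1/2) log N_E + κ √(log N_E) / log log N_E + c` holds for semistable elliptic curves over `ℚ` with
full rational 2-torsion and infinitely many modular invariants.
-/

set_option autoImplicit false

open Filter

namespace Pool.Agent.Results.MP_c59389_nt.CriticalSlopeErrorTerm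

/-- `W` is a global minimal Weierstrass equation: `Δ ≠ 0`, and `|Δ|` is smallest among all integral
Weierstrass equations that are obtained from `W` by a change of variables over `ℚ` -/
def IsGlobalMinimal (W : WeierstrassCurve ℤ) : Prop :=
  W.Δ ≠ 0 ∧ ∀ W' : WeierstrassCurve ℤ,
    (∃ C : WeierstrassCurve.VariableChange ℚ,
      C • W.map (Int.castRingHom ℚ) = W'.map (Int.castRingHom ℚ)) → |W.Δ| ≤ |W'.Δ|

/-- all 2-torsion points are rational: `4x³ + b₂x² + 2b₄x + b₆` splits over `ℚ` -/
def FullRationalTwoTorsion (W : WeierstrassCurve ℤ) : Prop :=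
  ∃ r₁ r₂ r₃ : ℚ, ∀ x : ℚ,
    4 * x ^ 3 + W.b₂ * x ^ 2 + 2 * W.b₄ * x + W.b₆ = 4 * (x - r₁) * (x - r₂) * (x - r₃)

/-- a global minimal equation with `gcd (c₄, Δ) = 1` (semistable reduction at every prime) and full
rational 2-torsion -/
def SemistableFullTwo (W : WeierstrassCurve ℤ) : Prop :=
  IsGlobalMinimal W ∧ IsCoprime W.c₄ W.Δ ∧ FullRationalTwoTorsion W

/-- the product of the primes dividing `Δ`; it is the conductor of a semistable curve given by a
global minimal equation -/
def conductor (W : WeierstrassCurve ℤ) : ℕ := ∏ p ∈ W.Δ.natAbs.primeFactors, p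

/-- the modular invariant of the curve `W` -/
noncomputable def jInvariant (W : WeierstrassCurve ℤ) : ℚ := (W.c₄ : ℚ) ^ 3 / W.Δ

/-- the modular invariant `j(τ) = E₄(τ) ^ 3 / Δ(τ) = 1 / q + 744 + ⋯` on the upper half plane -/
noncomputable def jInv (τ : UpperHalfPlane) : ℂ :=
  ModularForm.E₄ τ ^ 3 / ModularForm.discriminant τ

/-- the archimedean term `- log (|Δ(τ)| (Im τ) ^ 6)` of the Faltings height -/
noncomputable def arch (τ : UpperHalfPlane) : ℝ :=
  -Real.log (‖ModularForm.discriminant τ‖ * τ.im ^ 6)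

/-- `E(ℂ)` is isomorphic to `ℂ / (ℤ + ℤ τ)` -/
def IsPeriod (W : WeierstrassCurve ℤ) (τ : UpperHalfPlane) : Prop :=
  jInv τ = ((jInvariant W : ℚ) : ℂ)

/-- The stable Faltings height (up to an additive constant which depends on the normalisation only):
`12 h_F(E)` is the logarithm of the stable minimal discriminant, that is of the denominator of the
modular invariant, plus the archimedean term at a period `τ` of the curve. -/
noncomputable def height (W : WeierstrassCurve ℤ) (τ : UpperHalfPlane) : ℝ :=
  (Real.log ((jInvariant W).den : ℝ) + arch τ) / 12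

/-- the conductor of the product `E 0 × ⋯ × E (n - 1)` -/
def prodConductor {n : ℕ} (E : Fin n → WeierstrassCurve ℤ) : ℕ := ∏ i, conductor (E i)

/-- the stable Faltings height of the product `E 0 × ⋯ × E (n - 1)` -/
noncomputable def prodHeight {n : ℕ} (E : Fin n → WeierstrassCurve ℤ)
    (τ : Fin n → UpperHalfPlane) : ℝ := ∑ i, height (E i) (τ i)

/-- **The error term in Frey's conjecture at the slope `1/2`.** -/
theorem result :
    (∀ K K' : ℝ, 0 < K → 0 ≤ K' → K + K' ≤ 6.84 → ∃ C : ℝ, ∀ c : ℝ, ∀ᶠ Y : ℝ in atTop,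
      ∃ T : Finset (WeierstrassCurve ℤ),
        Real.exp (K' * √Y / Real.log Y) ≤ T.card ∧
        (∀ W ∈ T, ∀ W' ∈ T, jInvariant W = jInvariant W' → W = W') ∧
        (∀ W ∈ T, SemistableFullTwo W ∧ ∃ τ, IsPeriod W τ) ∧
        ∀ n : ℕ, 1 ≤ n → ∀ E : Fin n → WeierstrassCurve ℤ, (∀ i, E i ∈ T) →
          ∀ τ : Fin n → UpperHalfPlane, (∀ i, IsPeriod (E i) (τ i)) →
            Real.log (prodConductor E) ≤ n * Y ∧
            1 / 2 * Real.log (prodConductor E) + n * (K / 2) * √Y / Real.log Y + c ≤
              prodHeight E τ ∧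
            prodHeight E τ ≤ n * (Y / 2 + C)) ∧
    ∀ κ : ℝ, 0 ≤ κ → κ ≤ 3.42 → ∀ c : ℝ,
      {j : ℚ | ∃ W : WeierstrassCurve ℤ, jInvariant W = j ∧ SemistableFullTwo W ∧
        (∃ τ, IsPeriod W τ) ∧ ∀ τ, IsPeriod W τ →
          1 / 2 * Real.log (conductor W) +
              κ * √(Real.log (conductor W)) / Real.log (Real.log (conductor W)) + c ≤
            height W τ}.Infinite := by
  have hgood : ∀ W : WeierstrassCurve ℤ, Pool.Agent.U951.FC.Good W → SemistableFullTwo W :=
    fun W h => ⟨⟨h.1.ne', Pool.Agent.W270.Szp.minimal_of_coprime h.2.1⟩, h.2.1, h.2.2⟩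
  refine ⟨fun K K' hK hK' h => ?_, fun κ hκ0 hκ c => ?_⟩
  · obtain ⟨C, hC⟩ := Pool.Agent.U951.FC.main hK hK' (by norm_num at h ⊢; linarith)
    refine ⟨C / 12, fun c => ?_⟩
    filter_upwards [hC (12 * |c|)] with Y ⟨T, h1, h2, h3⟩
    refine ⟨T, h1, fun W hW W' hW' hj => h3 W hW W' hW' ?_, fun W hW => ?_, ?_⟩
    · have hd : (W.Δ : ℚ) ≠ 0 := by exact_mod_cast (h2 W hW).1.ne'
      have hd' : (W'.Δ : ℚ) ≠ 0 := by exact_mod_cast (h2 W' hW').1.ne'
      unfold jInvariant at hj
      rw [div_eq_div_iff hd hd'] at hj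
      exact_mod_cast hj
    · obtain ⟨p1, p2, p3, -, p5, -⟩ := h2 W hW
      exact ⟨hgood W ⟨p1, p2, p3⟩, p5⟩
    · intro n hn E hE τ hτ
      have hpos : ∀ i, (0 : ℝ) < conductor (E i) := fun i => by
        have : 0 < conductor (E i) :=
          Finset.prod_pos fun p hp => (Nat.prime_of_mem_primeFactors hp).pos
        exact_mod_cast this
      have hlog : Real.log (prodConductor E) = ∑ i, Real.log (conductor (E i)) := by
        rw [prodConductor]
        push_cast
        rw [Real.log_prod fun i _ => (hpos i).ne']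
      have hn1 : (1 : ℝ) ≤ n := by exact_mod_cast hn
      refine ⟨?_, ?_, ?_⟩
      · rw [hlog]
        refine (Finset.sum_le_card_nsmul _ _ Y fun i _ => (h2 _ (hE i)).2.2.2.1).trans ?_
        rw [Finset.card_univ, Fintype.card_fin, nsmul_eq_mul]
      · have h4 : ∀ i, 1 / 2 * Real.log (conductor (E i)) + (K / 2 * √Y / Real.log Y + |c|) ≤
            height (E i) (τ i) := by
          intro i
          have h5 := ((h2 _ (hE i)).2.2.2.2.2 (τ i) (hτ i)).1
          have h6 : Pool.Agent.U951.FC.ht (E i) (τ i) = 12 * height (E i) (τ i) := by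
            rw [height]
            rw [mul_div_cancel₀ _ (by norm_num : (12 : ℝ) ≠ 0)]
            rfl
          rw [h6] at h5
          have h7 : 6 * K * √Y / Real.log Y = 12 * (K / 2 * √Y / Real.log Y) := by ring
          have h8 : Real.log (Pool.Agent.W270.Szp.cond (E i)) = Real.log (conductor (E i)) := rfl
          linarith
        have h5 := Finset.sum_le_sum fun i (_ : i ∈ Finset.univ) => h4 i
        rw [Finset.sum_add_distrib, ← Finset.mul_sum, ← hlog, Finset.sum_const, Finset.card_univ,
          Fintype.card_fin, nsmul_eq_mul] at h5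
        rw [prodHeight]
        have h6 : (n : ℝ) * (K / 2 * √Y / Real.log Y + |c|) =
            n * (K / 2) * √Y / Real.log Y + n * |c| := by ring
        have h7 : c ≤ n * |c| := by nlinarith [le_abs_self c, abs_nonneg c]
        linarith
      · have h4 : ∀ i, height (E i) (τ i) ≤ Y / 2 + C / 12 := by
          intro i
          have h5 := ((h2 _ (hE i)).2.2.2.2.2 (τ i) (hτ i)).2
          have h6 : Pool.Agent.U951.FC.ht (E i) (τ i) = 12 * height (E i) (τ i) := by
            rw [height]
            rw [mul_div_cancel₀ _ (by norm_num : (12 : ℝ) ≠ 0)]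
            rfl
          rw [h6] at h5
          linarith
        rw [prodHeight]
        refine (Finset.sum_le_card_nsmul _ _ _ fun i _ => h4 i).trans ?_
        rw [Finset.card_univ, Fintype.card_fin, nsmul_eq_mul]
  · refine (Pool.Agent.U951.FC.infinite_j hκ0 (by norm_num at hκ ⊢; linarith) (12 * c)).mono ?_
    rintro j ⟨W, h1, h2, h3, h4⟩
    refine ⟨W, h1, hgood W h2, h3, fun τ hτ => ?_⟩
    have h5 := h4 τ hτ
    have h6 : Pool.Agent.U951.FC.ht W τ = 12 * height W τ := by
      rw [height]
      rw [mul_div_cancel₀ _ (by norm_num : (12 : ℝ) ≠ 0)]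
      rfl
    rw [h6] at h5
    have h7 : κ * √(Real.log (conductor W)) / Real.log (Real.log (conductor W)) =
      κ * (√(Real.log (conductor W)) / Real.log (Real.log (conductor W))) := by ring
    have h8 : Real.log (Pool.Agent.W270.Szp.cond W) = Real.log (conductor W) := rfl
    rw [h8] at h5
    linarith

end Pool.Agent.Results.MP_c59389_nt.CriticalSlopeErrorTerm
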