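import Pool.Agent.U405.RS.F
import Pool.Agent.U405.RS.F2
import Pool.Agent.Results.MP_c59389_nt.StarshapedFrey

/-!
# Frey's inequality for elliptic curves over all fields of degree `n`: heights near values of `f` at thin sets of arguments

Let `f` be a positive multiplicative function of at most polynomial growth which for each `a ≥ 1` is injective at the powers
`p ^ a` of the large primes and at most `M p ^ a` there; for example Euler's function or the sum of the divisors. Let `n ≥ 2`, `κ > 0`, `θ ≥ 0`, `α > 0`, `D ≥ 1` and `ρ = D e(n) / ((n + 1) κ) + θ` (with `e n ≤ max (2 / 3) (expo n / 2)` for all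
`n ≥ 2`, so `e 2 ≤ 2 / 3`, `e 3 ≤ 2 / 3`, and `e n = O (log ^ 2 n)`). For ALL number fields `L` of degree `n` (in the algebraic closure
of `ℚ`) and ALL elliptic curves `W` over `L` with full two-torsion for which `h = n h_F(W)` satisfies
`|exp (h) ^ (n + 1) - α f(v)^D| ≤ f(v)^θ` one has `h ≤ κ log (badNorm W |D_L| ^ 2) - c`, for almost all `v` (with a saving of any
power of the logarithm) in each of these sets:

* the values of any integer polynomial without repeated roots, of degree `< 1 / ρ`;
* the shifted primes `p + a`, `a` any integer, if `ρ < 1`;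
* the intervals `(x, x + y]`, `x^τ ≤ y ≤ x`, for every `τ > ρ`, `τ ≤ 1`.

Since `e n` is `O (log ^ 2 n)`, for every fixed `κ > 0` the number `e(n) / ((n + 1) κ)` tends to `0` with the degree, and polynomials
of any given degree are allowed for large `n`.

Proof. Own tool `Pool.Agent.U405.RS`: let `S` be a set of at least `N^(θ + δ)` integers up to `N` with at most
`B g^ω(k) |S| / k` multiples of `k` for every `k ≤ N^δ`, and let `W` have at most `C X^θ` elements up to `X`. Then `f(m) ∈ W` for at
most `|S| / (log N)^U` of the `m` in `S`. For this write `m = k w` with `k` composed of the primes `≤ z = N^(1 / J)`, `J` a small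
multiple of `log log N`. By Rankin's method with the weights `g^ω(k)` one has `k ≤ N^η` for most `m`; and `w` has at most `J`
prime factors and exponents `≤ J`, so that `w` is determined by `f(w)` up to `(J τ(f(w)) + 1)^J = N^o(1)` possibilities. The three
kinds of sets satisfy the hypothesis: for polynomials because `P` has at most `g` zeros modulo every prime power (lifting of
zeros by the identity `U P + V P' = R`), for shifted primes by the Brun-Titchmarsh inequality (library). The exceptional
curves are counted by the starting theorems `WeilRestrictions` and `StarshapedFrey` of this problem.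
-/

set_option autoImplicit false

namespace Pool.Agent.Results.MP_c59389_nt.SparseArguments

open NumberField
open WeilRestrictions (jInv faltings FullTwo badNorm Violators expo IsPeriod)
open StarshapedFrey (hF ht Exc count Num)
open Pool.Agent.N733.TG (Expanding expanding_pow)
open Pool.Agent.U405.RS (PM Sparse sparse_set' examples)

/-- for ALL number fields `L` of degree `n` and ALL elliptic curves `W` over `L` with full two-torsion for which `h = n h_F(W)`
satisfies `|exp (h) ^ (n + 1) - G v| ≤ v ^ θ` one has `h ≤ κ log (badNorm W |D_L| ^ 2) - c` -/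
def Clear (P : ℂ → UpperHalfPlane) (n : ℕ) (κ c : ℝ) (G : ℕ → ℝ) (θ : ℝ) (v : ℕ) : Prop :=
  ∀ (L : IntermediateField ℚ (AlgebraicClosure ℚ)) (_ : NumberField L) (W : WeierstrassCurve L),
    Module.finrank ℚ L = n → W.Δ ≠ 0 → FullTwo W →
    |Real.exp (hF P (W.c₄ ^ 3 / W.Δ)) ^ (n + 1) - G v| ≤ (v : ℝ) ^ θ →
      hF P (W.c₄ ^ 3 / W.Δ) ≤ κ * Real.log (badNorm W * |(NumberField.discr L : ℝ)| ^ 2) - c

/-- **Frey's inequality near `G (f v)` for the `v` in thin sets.** There is a function `e ≥ 0` with
`e n ≤ max (2 / 3) (expo n / 2)` for `n ≥ 2` and `e n = O (log ^ 2 n)` such that for each section `P` of the modular invariant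
(used to write down Faltings heights), all `f` in the class `PM`, all `G` with steps `≥ const > 0` and growth at most `v^D`, all
`n ≥ 2`, `κ > 0`, `θ ≥ 0`, `c` and `U` the property that for ALL number fields `L` of degree `n` and ALL elliptic curves `W` over
`L` with full two-torsion for which `h = n h_F(W)` satisfies `|exp (h) ^ (n + 1) - G v| ≤ v ^ θ` one has
`h ≤ κ log (badNorm W |D_L| ^ 2) - c` holds in the sense `Sparse ρ f`, `ρ = D e(n) / ((n + 1) κ) + θ`.
(`Sparse ρ f`: with a saving of `(log x)^U` it holds at `f v` for almost all `v` among the positive values of every integer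
polynomial without repeated roots of degree `< 1 / ρ`; among the shifted primes `p + a` for every `a`, if `ρ < 1`; and in all
intervals `(x, x + y]`, `x^τ ≤ y ≤ x`, `ρ < τ ≤ 1`.) Euler's function and the sum of the divisors are in the class `PM`, and
`α v^D` with `α > 0`, `D ≥ 1` is an example of `G`. -/
theorem result :
    (∃ e : ℕ → ℝ, (∀ n, 0 ≤ e n) ∧ (∀ n : ℕ, 2 ≤ n → e n ≤ max (2 / 3) (expo n / 2)) ∧
      (∀ c : ℝ, 1 / (16 * (Real.log 2) ^ 2) < c → ∀ᶠ n : ℕ in Filter.atTop, e n ≤ c * (Real.log n) ^ 2) ∧
      ∀ P : ℂ → UpperHalfPlane, (∀ z, jInv (P z) = z) → ∀ f : ℕ → ℕ, PM f → ∀ (G : ℕ → ℝ) (D : ℝ), Expanding G D →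
        ∀ n : ℕ, 2 ≤ n → ∀ κ θ : ℝ, 0 < κ → 0 ≤ θ → ∀ (c : ℝ) (U : ℕ),
        Sparse (D * (e n / ((n + 1) * κ)) + θ) f (Clear P n κ c G θ) U) ∧
    (PM Nat.totient ∧ PM (fun m => ∑ d ∈ m.divisors, d) ∧ PM (fun m => m)) ∧
    ∀ α D : ℝ, 0 < α → 1 ≤ D → Expanding (fun v => α * (v : ℝ) ^ D) D := by
  obtain ⟨e, he1, he2, he3⟩ := WeilRestrictions.result.1
  refine ⟨⟨fun n => max (e n) 0, fun n => le_max_right _ _, fun n hn => max_le (he2 n hn) ?_,
    fun c hc => ?_, fun P hP f hf G D hG n hn κ θ hκ hθ c U => ?_⟩, examples,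
    fun α D hα hD => expanding_pow hα hD⟩
  · exact le_trans (by norm_num) (le_max_left _ _)
  · have hc0 : 0 < c := lt_trans (by
      have := Real.log_pos (by norm_num : (1 : ℝ) < 2)
      positivity) hc
    filter_upwards [he1 c hc] with n hn
    exact max_le hn (by positivity)
  · refine sparse_set' (Exc P n κ (-c)) (fun p => Real.exp (ht P p) ^ (n + 1)) hf hG
      (s := max (e n) 0 / ((n + 1) * κ)) (κ := θ) (div_nonneg (le_max_right _ _) (by positivity)) hθ rfl
      (fun ε hε => count hP hn hκ (fun δ hδ => he3 n hn κ (-c) δ hκ hδ) ε hε) _ U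
      (fun v hv L hL W hd hW1 hW2 hw => ?_)
    by_contra hcon
    refine hv ⟨⟨L, hL⟩, W.c₄ ^ 3 / W.Δ⟩ ⟨hd, W, hW1, hW2, rfl, ?_⟩ hw
    show κ * Real.log (badNorm W * |(NumberField.discr L : ℝ)| ^ 2) + -c < hF P (W.c₄ ^ 3 / W.Δ)
    linarith [not_le.1 hcon]

end Pool.Agent.Results.MP_c59389_nt.SparseArguments
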